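import Pool.Agent.helper4.HL.Spec
import Pool.Agent.helper35.CM.ME

/-! # Module hl:ERG -/

set_option autoImplicit false

open scoped BigOperators ComplexOrder ComplexConjugate Topology

namespace Pool.Agent.HL

open Pool.Agent.helper86.CM Pool.Agent.QS Filter MeasureTheory

noncomputable section

theorem ERG_vol : (volume : Measure T2) = ME_H (Fin 1 ⊕ Fin 1) := by
  have h : (volume : Measure UnitAddCircle) = AddCircle.haarAddCircle := by
    rw [AddCircle.volume_eq_smul_haarAddCircle]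
    simp
  unfold ME_H
  rw [volume_pi, h]

theorem ERG_chr_conj (n : Lat 1) (y : T2) : conj (chr n y) = chr (-n) y :=
  UnitAddTorus.mFourier_neg.symm

theorem ERG_chr_add (n m : Lat 1) (y : T2) : chr (n + m) y = chr n y * chr m y :=
  UnitAddTorus.mFourier_add

theorem ERG_int (n : Lat 1) : ∫ y : T2, chr n y = if n = 0 then (1 : ℂ) else 0 := by
  rw [ERG_vol]
  exact ME_haar n

theorem ERG_integrable (n : Lat 1) : Integrable (fun y : T2 => chr n y) := by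
  rw [ERG_vol]
  exact ME_int n (ME_H (Fin 1 ⊕ Fin 1))

/-- Mean square of a trigonometric polynomial with repeated frequencies. -/
theorem ERG_gen {K : Type} (T : Finset K) (f : K → Lat 1) (a : K → ℂ) (G : T2 → ℝ)
    (hG : ∀ y, (G y : ℂ) = ∑ k ∈ T, a k * chr (f k) y) :
    ∫ y : T2, (G y) ^ 2 ≤ ∑ k ∈ T, ∑ k' ∈ T, if f k = f k' then ‖a k‖ * ‖a k'‖ else 0 := by
  have h1 : ∀ y : T2, (((G y) ^ 2 : ℝ) : ℂ) =
      ∑ k ∈ T, ∑ k' ∈ T, (conj (a k) * a k') * chr (f k' - f k) y := by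
    intro y
    have h2 : (((G y) ^ 2 : ℝ) : ℂ) = conj (G y : ℂ) * (G y : ℂ) := by
      rw [Complex.conj_ofReal]
      push_cast
      ring
    rw [h2, hG y, map_sum, Finset.sum_mul_sum]
    refine Finset.sum_congr rfl fun k _ => Finset.sum_congr rfl fun k' _ => ?_
    rw [map_mul, ERG_chr_conj, sub_eq_add_neg, add_comm, ERG_chr_add]
    ring
  have h3 : ((∫ y : T2, (G y) ^ 2 : ℝ) : ℂ) =
      ∑ k ∈ T, ∑ k' ∈ T, (conj (a k) * a k') * (if f k' - f k = 0 then (1 : ℂ) else 0) := by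
    rw [← integral_complex_ofReal]
    simp_rw [h1]
    rw [integral_finsetSum]
    · refine Finset.sum_congr rfl fun k _ => ?_
      rw [integral_finsetSum]
      · refine Finset.sum_congr rfl fun k' _ => ?_
        rw [integral_const_mul, ERG_int]
      · intro k' _
        exact (ERG_integrable _).const_mul _
    · intro k _
      refine integrable_finsetSum _ fun k' _ => ?_
      exact (ERG_integrable _).const_mul _
  have h4 : (∫ y : T2, (G y) ^ 2) ≤ ‖((∫ y : T2, (G y) ^ 2 : ℝ) : ℂ)‖ := by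
    rw [Complex.norm_real]
    exact le_abs_self _
  refine h4.trans ?_
  rw [h3]
  refine (norm_sum_le _ _).trans (Finset.sum_le_sum fun k _ => ?_)
  refine (norm_sum_le _ _).trans (Finset.sum_le_sum fun k' _ => ?_)
  rw [norm_mul, norm_mul, RCLike.norm_conj]
  by_cases h : f k = f k'
  · rw [if_pos h, if_pos (sub_eq_zero.mpr h.symm), norm_one, mul_one]
  · rw [if_neg h, if_neg (fun h' => h (sub_eq_zero.mp h').symm), norm_zero, mul_zero]

/-- No periodic points. -/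
theorem ERG_per (hL : LUL_stmt) (hE : BET_stmt) {B : Lat 1 ≃ₗ[ℤ] Lat 1} {t : ℤ} (hB : Cat B t)
    (d d' : Lat 1) (hd' : d' ≠ 0) (s s1 s2 : ℕ) (h1 : pw B (s : ℤ) d = pw B (s1 : ℤ) d')
    (h2 : pw B (s : ℤ) d = pw B (s2 : ℤ) d') : s1 = s2 := by
  obtain ⟨⟨hl2, -, -⟩, -, -, -⟩ := hL t hB.lt
  obtain ⟨hb1, -, hb3, hb4⟩ := hE B t hB
  have h3 : pw B ((s2 : ℤ) - s1) d' = d' := by
    have : pw B (s2 : ℤ) d' = pw B (s1 : ℤ) d' := h2.symm.trans h1
    rw [sub_eq_add_neg, add_comm, pw_add, this, pw_neg_pw]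
  have h4 := hb1 ((s2 : ℤ) - s1) d' d'
  rw [h3] at h4
  have h5 : beta B t d' d' ≠ 0 := by
    rw [hb3]
    exact_mod_cast hb4 d' hd'
  have h6 : (lam t) ^ ((s2 : ℤ) - s1) = 1 := by
    have : ((lam t) ^ ((s2 : ℤ) - s1) - 1) * beta B t d' d' = 0 := by
      rw [sub_mul, ← h4]
      ring
    rcases mul_eq_zero.mp this with h | h
    · linarith
    · exact absurd h h5
  have h7 : (s2 : ℤ) - s1 = 0 := (zpow_eq_one_iff_right₀ (by linarith) (by linarith)).mp h6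
  omega

theorem ERG (hL : LUL_stmt) (hE : BET_stmt) : ERG_stmt := by
  classical
  intro B t hB S p
  set I : Finset (Lat 1 × Lat 1) := (S ×ˢ S).filter fun z => z.1 ≠ z.2 with hI
  set A : ℝ := ∑ z ∈ I, ‖p z.1‖ * ‖p z.2‖ with hA
  have hA0 : 0 ≤ A := Finset.sum_nonneg fun z _ => by positivity
  refine ⟨A ^ 2, by positivity, fun l hl => ?_⟩
  have hlR : (0 : ℝ) < l := by exact_mod_cast hl
  -- the expansion of one square
  have hsq : ∀ (s : ℕ) (y : T2), (((‖∑ n ∈ S, p n * chr (pw B (s : ℤ) n) y‖ ^ 2 -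
      ∑ n ∈ S, ‖p n‖ ^ 2 : ℝ)) : ℂ) =
      ∑ z ∈ I, (conj (p z.1) * p z.2) * chr (pw B (s : ℤ) (z.2 - z.1)) y := by
    intro s y
    have e1 : (((‖∑ n ∈ S, p n * chr (pw B (s : ℤ) n) y‖ ^ 2 : ℝ)) : ℂ) =
        ∑ z ∈ S ×ˢ S, (conj (p z.1) * p z.2) * chr (pw B (s : ℤ) (z.2 - z.1)) y := by
      have e2 : (((‖∑ n ∈ S, p n * chr (pw B (s : ℤ) n) y‖ ^ 2 : ℝ)) : ℂ) =
          conj (∑ n ∈ S, p n * chr (pw B (s : ℤ) n) y) *
          (∑ n ∈ S, p n * chr (pw B (s : ℤ) n) y) := by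
        rw [Complex.conj_mul']
        push_cast
        rfl
      rw [e2, map_sum, Finset.sum_mul_sum, Finset.sum_product]
      refine Finset.sum_congr rfl fun k _ => Finset.sum_congr rfl fun k' _ => ?_
      rw [map_mul, ERG_chr_conj, map_sub, sub_eq_add_neg, add_comm, ERG_chr_add]
      ring
    have e3 : ∑ z ∈ (S ×ˢ S).filter (fun z => ¬ z.1 ≠ z.2),
        (conj (p z.1) * p z.2) * chr (pw B (s : ℤ) (z.2 - z.1)) y =
        ((∑ n ∈ S, ‖p n‖ ^ 2 : ℝ) : ℂ) := by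
      have e4 : (S ×ˢ S).filter (fun z => ¬ z.1 ≠ z.2) = S.image fun n => (n, n) := by
        ext ⟨a, b⟩
        simp only [Finset.mem_filter, Finset.mem_product, Finset.mem_image, Prod.mk.injEq,
          not_not]
        constructor
        · rintro ⟨⟨h1, h2⟩, h3⟩
          exact ⟨a, h1, rfl, h3⟩
        · rintro ⟨c, h1, h2, h3⟩
          subst h2
          subst h3
          exact ⟨⟨h1, h1⟩, rfl⟩
      rw [e4, Finset.sum_image (fun a _ b _ h => (Prod.mk.inj h).1)]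
      push_cast
      refine Finset.sum_congr rfl fun n _ => ?_
      have e5 : chr (pw B (s : ℤ) (n - n)) y = 1 := by
        rw [sub_self, map_zero]
        show UnitAddTorus.mFourier (0 : Lat 1) y = 1
        rw [UnitAddTorus.mFourier_zero]
        rfl
      rw [e5, mul_one, Complex.conj_mul']
    rw [Complex.ofReal_sub, e1, ← e3, ← Finset.sum_filter_add_sum_filter_not (S ×ˢ S)
      (fun z => z.1 ≠ z.2), add_sub_cancel_right]
  have hG : ∀ y : T2, (((l : ℝ)⁻¹ * ∑ s ∈ Finset.range l,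
      ‖∑ n ∈ S, p n * chr (pw B (s : ℤ) n) y‖ ^ 2 - ∑ n ∈ S, ‖p n‖ ^ 2 : ℝ) : ℂ) =
      ∑ k ∈ Finset.range l ×ˢ I, ((l : ℂ)⁻¹ * (conj (p k.2.1) * p k.2.2)) *
        chr (pw B (k.1 : ℤ) (k.2.2 - k.2.1)) y := by
    intro y
    have e1 : ((l : ℝ)⁻¹ * ∑ s ∈ Finset.range l,
      ‖∑ n ∈ S, p n * chr (pw B (s : ℤ) n) y‖ ^ 2 - ∑ n ∈ S, ‖p n‖ ^ 2 : ℝ) =
      (l : ℝ)⁻¹ * ∑ s ∈ Finset.range l,
      (‖∑ n ∈ S, p n * chr (pw B (s : ℤ) n) y‖ ^ 2 - ∑ n ∈ S, ‖p n‖ ^ 2) := by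
      rw [Finset.sum_sub_distrib, Finset.sum_const, Finset.card_range, nsmul_eq_mul, mul_sub,
        ← mul_assoc, inv_mul_cancel₀ hlR.ne', one_mul]
    rw [e1, Complex.ofReal_mul, Complex.ofReal_sum, Finset.sum_product, Finset.mul_sum]
    refine Finset.sum_congr rfl fun s _ => ?_
    rw [hsq s y, Finset.mul_sum]
    refine Finset.sum_congr rfl fun z _ => ?_
    push_cast
    ring
  refine (ERG_gen (Finset.range l ×ˢ I) (fun k => pw B (k.1 : ℤ) (k.2.2 - k.2.1))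
    (fun k => (l : ℂ)⁻¹ * (conj (p k.2.1) * p k.2.2)) _ hG).trans ?_
  have hn : ∀ k : ℕ × (Lat 1 × Lat 1), ‖(l : ℂ)⁻¹ * (conj (p k.2.1) * p k.2.2)‖ =
      (l : ℝ)⁻¹ * (‖p k.2.1‖ * ‖p k.2.2‖) := by
    intro k
    rw [norm_mul, norm_mul, RCLike.norm_conj, norm_inv, Complex.norm_natCast]
  have hrow : ∀ k ∈ Finset.range l ×ˢ I, ∑ k' ∈ Finset.range l ×ˢ I,
      (if pw B (k.1 : ℤ) (k.2.2 - k.2.1) = pw B (k'.1 : ℤ) (k'.2.2 - k'.2.1) then
        ‖(l : ℂ)⁻¹ * (conj (p k.2.1) * p k.2.2)‖ * ‖(l : ℂ)⁻¹ * (conj (p k'.2.1) * p k'.2.2)‖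
        else 0) ≤ (l : ℝ)⁻¹ * (‖p k.2.1‖ * ‖p k.2.2‖) * ((l : ℝ)⁻¹ * A) := by
    intro k _
    rw [Finset.sum_product_right, hA, Finset.mul_sum, Finset.mul_sum]
    refine Finset.sum_le_sum fun z hz => ?_
    have hz' : z.2 - z.1 ≠ 0 := by
      have := (Finset.mem_filter.mp hz).2
      intro h
      exact this (sub_eq_zero.mp h).symm
    have hc : ∀ s' ∈ Finset.range l,
        (if pw B (k.1 : ℤ) (k.2.2 - k.2.1) = pw B (((s', z) : ℕ × (Lat 1 × Lat 1)).1 : ℤ)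
          (((s', z) : ℕ × (Lat 1 × Lat 1)).2.2 - ((s', z) : ℕ × (Lat 1 × Lat 1)).2.1) then
        ‖(l : ℂ)⁻¹ * (conj (p k.2.1) * p k.2.2)‖ *
          ‖(l : ℂ)⁻¹ * (conj (p ((s', z) : ℕ × (Lat 1 × Lat 1)).2.1) *
            p ((s', z) : ℕ × (Lat 1 × Lat 1)).2.2)‖ else 0) =
        (if pw B (k.1 : ℤ) (k.2.2 - k.2.1) = pw B (s' : ℤ) (z.2 - z.1) then
          (l : ℝ)⁻¹ * (‖p k.2.1‖ * ‖p k.2.2‖) * ((l : ℝ)⁻¹ * (‖p z.1‖ * ‖p z.2‖)) else 0) := by
      intro s' _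
      rw [hn, hn]
    rw [Finset.sum_congr rfl hc, ← Finset.sum_filter, Finset.sum_const]
    have hcard : ((Finset.range l).filter fun s' : ℕ =>
        pw B (k.1 : ℤ) (k.2.2 - k.2.1) = pw B (s' : ℤ) (z.2 - z.1)).card ≤ 1 := by
      refine Finset.card_le_one.mpr fun a ha b hb => ?_
      exact ERG_per hL hE hB _ _ hz' k.1 a b (Finset.mem_filter.mp ha).2
        (Finset.mem_filter.mp hb).2
    have hpos : 0 ≤ (l : ℝ)⁻¹ * (‖p k.2.1‖ * ‖p k.2.2‖) * ((l : ℝ)⁻¹ * (‖p z.1‖ * ‖p z.2‖)) := by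
      positivity
    rw [nsmul_eq_mul]
    calc _ ≤ (1 : ℝ) * ((l : ℝ)⁻¹ * (‖p k.2.1‖ * ‖p k.2.2‖) *
          ((l : ℝ)⁻¹ * (‖p z.1‖ * ‖p z.2‖))) := by
          refine mul_le_mul_of_nonneg_right ?_ hpos
          exact_mod_cast hcard
      _ = _ := by rw [one_mul]
  refine (Finset.sum_le_sum hrow).trans ?_
  rw [← Finset.sum_mul, Finset.sum_product]
  have hs : ∑ x ∈ Finset.range l, ∑ y ∈ I, (l : ℝ)⁻¹ *
      (‖p ((x, y) : ℕ × (Lat 1 × Lat 1)).2.1‖ * ‖p ((x, y) : ℕ × (Lat 1 × Lat 1)).2.2‖) = A := by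
    have hs1 : ∀ x ∈ Finset.range l, ∑ y ∈ I, (l : ℝ)⁻¹ *
        (‖p ((x, y) : ℕ × (Lat 1 × Lat 1)).2.1‖ * ‖p ((x, y) : ℕ × (Lat 1 × Lat 1)).2.2‖) =
        (l : ℝ)⁻¹ * A := by
      intro x _
      rw [← Finset.mul_sum]
    rw [Finset.sum_congr rfl hs1, Finset.sum_const, Finset.card_range, nsmul_eq_mul,
      ← mul_assoc, mul_inv_cancel₀ hlR.ne', one_mul]
  rw [hs]
  refine le_of_eq ?_
  field_simp

end

end Pool.Agent.HL
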